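import Pool.Agent.Lib_helper2.EFD.Defs

set_option autoImplicit false

namespace Pool.Agent.EFD
open Pool.Agent.PTm Pool.Agent.EFX3

theorem hlv_eq_pr (k : List Unit) (x : ℕ) : hlv k x = x / 2 ^ k.length := by
  induction k generalizing x with
  | nil => simp [hlv]
  | cons a k ih =>
    have h1 : hlv (a :: k) x = hlv k x.div2 := rfl
    rw [h1, ih, Nat.div2_val, Nat.div_div_eq_div_mul, List.length_cons, pow_succ']

theorem ca_fold (B : ℕ) (l : List Bool) : ∀ (y : ℕ) (k : List Unit),
    ∃ j ≤ l.length,
      (l.foldl (fun (s : ℕ × List Unit) (_ : Bool) =>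
        if decide (B ≤ s.1) = true then (s.1.div2, () :: s.2) else s) (y, k)).1 = y / 2 ^ j ∧
      (l.foldl (fun (s : ℕ × List Unit) (_ : Bool) =>
        if decide (B ≤ s.1) = true then (s.1.div2, () :: s.2) else s) (y, k)).2.length =
          k.length + j ∧
      (y / 2 ^ j < B ∨ j = l.length) ∧ (j = 0 ∨ B ≤ y / 2 ^ (j - 1)) := by
  induction l with
  | nil =>
    intro y k
    exact ⟨0, le_refl _, by simp, by simp, Or.inr rfl, Or.inl rfl⟩
  | cons a l ih =>
    intro y k
    by_cases hB : B ≤ y
    · obtain ⟨j, hj, h1, h2, h3, h4⟩ := ih y.div2 (() :: k)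
      refine ⟨j + 1, by simpa using hj, ?_, ?_, ?_, ?_⟩
      · rw [List.foldl_cons]
        simp only [hB, decide_true, if_true]
        rw [h1, Nat.div2_val, Nat.div_div_eq_div_mul, pow_succ']
      · rw [List.foldl_cons]
        simp only [hB, decide_true, if_true]
        rw [h2, List.length_cons]
        ring
      · rcases h3 with h3 | h3
        · left
          rw [Nat.div2_val, Nat.div_div_eq_div_mul, ← pow_succ'] at h3
          exact h3
        · right
          rw [h3, List.length_cons]
      · right
        rw [Nat.add_sub_cancel]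
        rcases h4 with h4 | h4
        · rw [h4]
          simpa using hB
        · rcases Nat.eq_zero_or_pos j with h5 | h5
          · rw [h5]
            simpa using hB
          · obtain ⟨i, rfl⟩ : ∃ i, j = i + 1 := ⟨j - 1, by omega⟩
            rw [Nat.add_sub_cancel, Nat.div2_val, Nat.div_div_eq_div_mul, ← pow_succ'] at h4
            exact h4
    · have h0 : (a :: l).foldl (fun (s : ℕ × List Unit) (_ : Bool) =>
          if decide (B ≤ s.1) = true then (s.1.div2, () :: s.2) else s) (y, k) = (y, k) := by
        have : ∀ l : List Bool, l.foldl (fun (s : ℕ × List Unit) (_ : Bool) =>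
            if decide (B ≤ s.1) = true then (s.1.div2, () :: s.2) else s) (y, k) = (y, k) := by
          intro l
          induction l with
          | nil => rfl
          | cons b l ih2 =>
            rw [List.foldl_cons]
            simp only [hB, decide_false, Bool.false_eq_true, if_false]
            exact ih2
        exact this _
      refine ⟨0, Nat.zero_le _, ?_, ?_, ?_, Or.inl rfl⟩
      · rw [h0]; simp
      · rw [h0]; simp
      · left
        simp only [pow_zero, Nat.div_one]
        omega

theorem ca_cnt (B x : ℕ) : ∃ j ≤ x.bits.length, (cnt B x).length = j ∧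
    (x / 2 ^ j < B ∨ j = x.bits.length) ∧ (j = 0 ∨ B ≤ x / 2 ^ (j - 1)) := by
  obtain ⟨j, hj, _, h2, h3, h4⟩ := ca_fold B x.bits x []
  refine ⟨j, hj, ?_, h3, h4⟩
  unfold cnt
  rw [h2]
  simp

theorem cnt_lt_pr {B x : ℕ} (hB : 0 < B) : hlv (cnt B x) x < B := by
  obtain ⟨j, _, h1, h2, _⟩ := ca_cnt B x
  rw [hlv_eq_pr, h1]
  rcases h2 with h2 | h2
  · exact h2
  · have h3 : x < 2 ^ j := by
      rw [h2, Nat.size_eq_bits_len]
      exact Nat.lt_size_self x
    rw [Nat.div_eq_of_lt h3]
    exact hB

theorem cnt_spec_pr {B x : ℕ} (hB : 0 < B) :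
    cnt B x = [] ∨ B / 2 * 2 ^ (cnt B x).length ≤ x := by
  obtain ⟨j, _, h1, _, h2⟩ := ca_cnt B x
  rcases h2 with h2 | h2
  · left
    rw [h2] at h1
    exact List.length_eq_zero_iff.mp h1
  · right
    rw [h1]
    rcases Nat.eq_zero_or_pos j with h3 | h3
    · rw [h3] at h2 ⊢
      simp only [Nat.zero_sub, pow_zero, Nat.div_one, mul_one] at h2 ⊢
      omega
    · obtain ⟨i, rfl⟩ : ∃ i, j = i + 1 := ⟨j - 1, by omega⟩
      rw [Nat.add_sub_cancel] at h2
      have h4 : B * 2 ^ i ≤ x := (Nat.le_div_iff_mul_le (by positivity)).mp h2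
      have h5 : B / 2 * 2 ^ (i + 1) = (B / 2 * 2) * 2 ^ i := by rw [pow_succ]; ring
      rw [h5]
      exact (Nat.mul_le_mul_right _ (Nat.div_mul_le_self B 2)).trans h4

theorem ca_maxv (i : Fin 3) (L : List Good) : ∀ m : ℕ,
    m ≤ L.foldl (fun m g => if decide (m ≤ g.2 i) = true then g.2 i else m) m ∧
    (∀ g ∈ L, g.2 i ≤ L.foldl (fun m g => if decide (m ≤ g.2 i) = true then g.2 i else m) m) ∧
    (L.foldl (fun m g => if decide (m ≤ g.2 i) = true then g.2 i else m) m = m ∨
      ∃ g ∈ L, g.2 i = L.foldl (fun m g => if decide (m ≤ g.2 i) = true then g.2 i else m) m) := by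
  induction L with
  | nil =>
    intro m
    exact ⟨le_refl _, fun g hg => absurd hg List.not_mem_nil, Or.inl rfl⟩
  | cons a L ih =>
    intro m
    rw [List.foldl_cons]
    by_cases h : m ≤ a.2 i
    · simp only [h, decide_true, if_true]
      obtain ⟨h1, h2, h3⟩ := ih (a.2 i)
      refine ⟨h.trans h1, ?_, ?_⟩
      · intro g hg
        rcases List.mem_cons.mp hg with hg | hg
        · rw [hg]; exact h1
        · exact h2 g hg
      · right
        rcases h3 with h3 | ⟨g, hg, h3⟩
        · exact ⟨a, List.mem_cons_self, h3.symm⟩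
        · exact ⟨g, List.mem_cons_of_mem _ hg, h3⟩
    · simp only [h, decide_false, Bool.false_eq_true, if_false]
      obtain ⟨h1, h2, h3⟩ := ih m
      refine ⟨h1, ?_, ?_⟩
      · intro g hg
        rcases List.mem_cons.mp hg with hg | hg
        · rw [hg]
          exact le_trans (by omega) h1
        · exact h2 g hg
      · rcases h3 with h3 | ⟨g, hg, h3⟩
        · left; exact h3
        · right; exact ⟨g, List.mem_cons_of_mem _ hg, h3⟩

theorem le_maxv_pr {i : Fin 3} {L : List Good} {g : Good} (hg : g ∈ L) : g.2 i ≤ maxv i L :=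
  (ca_maxv i L 0).2.1 g hg

/-- `maxv` is attained or `0` -/
theorem maxv_mem_pr (i : Fin 3) (L : List Good) : maxv i L = 0 ∨ ∃ g ∈ L, g.2 i = maxv i L :=
  (ca_maxv i L 0).2.2

theorem B16_eq_pr (L : List Good) : B16 L = 16 * L.length := by
  have h : ∀ (L : List Good) (n : ℕ), L.foldl (fun n (_ : Good) => n + 16) n = n + 16 * L.length := by
    intro L
    induction L with
    | nil => intro n; simp
    | cons a L ih =>
      intro n
      rw [List.foldl_cons, ih, List.length_cons]
      ring
  unfold B16
  rw [h, zero_add]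

theorem wt_lt_pr {L : List Good} {i : Fin 3} {g : Good} (hg : g ∈ L) :
    wt (KK L) i g < 16 * L.length := by
  have hpos : 0 < L.length := List.length_pos_of_mem hg
  have hB : 0 < B16 L := by rw [B16_eq_pr]; omega
  have h1 := cnt_lt_pr (x := maxv i L) hB
  rw [hlv_eq_pr, B16_eq_pr] at h1
  unfold wt KK
  rw [hlv_eq_pr, B16_eq_pr]
  exact lt_of_le_of_lt (Nat.div_le_div_right (le_maxv_pr hg)) h1

theorem ca_sum (K : Fin 3 → List Unit) (i : Fin 3) (X : List Good) :
    2 ^ (K i).length * wsum K i X ≤ val i X ∧
      val i X ≤ 2 ^ (K i).length * wsum K i X + X.length * 2 ^ (K i).length := by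
  induction X with
  | nil => simp [wsum, val]
  | cons g X ih =>
    obtain ⟨h1, h2⟩ := ih
    have e1 : wsum K i (g :: X) = wt K i g + wsum K i X := by
      unfold wsum
      rw [List.map_cons, List.sum_cons]
    have e2 : val i (g :: X) = g.2 i + val i X := by
      simp [val]
    have e3 : wt K i g = g.2 i / 2 ^ (K i).length := by
      unfold wt
      rw [hlv_eq_pr]
    have hp : 0 < 2 ^ (K i).length := by positivity
    have h3 : 2 ^ (K i).length * (g.2 i / 2 ^ (K i).length) ≤ g.2 i := Nat.mul_div_le _ _
    have h4 : g.2 i < 2 ^ (K i).length * (g.2 i / 2 ^ (K i).length) + 2 ^ (K i).length := by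
      have := Nat.lt_mul_div_succ (g.2 i) hp
      rw [mul_add, mul_one] at this
      exact this
    rw [e1, e2, e3, List.length_cons, mul_add, add_mul, one_mul]
    constructor <;> linarith

theorem ca_sum_nil (K : Fin 3 → List Unit) (i : Fin 3) (hK : K i = []) (X : List Good) :
    val i X = wsum K i X := by
  induction X with
  | nil => simp [wsum, val]
  | cons g X ih =>
    have e1 : wsum K i (g :: X) = wt K i g + wsum K i X := by
      unfold wsum
      rw [List.map_cons, List.sum_cons]
    have e2 : val i (g :: X) = g.2 i + val i X := by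
      simp [val]
    have e3 : wt K i g = g.2 i := by
      unfold wt
      rw [hlv_eq_pr, hK]
      simp
    rw [e1, e2, e3, ih]

/-- bundles of the same weight have nearly the same value -/
theorem wt_err_pr {L : List Good} {i : Fin 3} {X Y : List Good} (hX : ∀ g ∈ X, g ∈ L)
    (hY : ∀ g ∈ Y, g ∈ L) (hXl : X.length ≤ L.length) (hYl : Y.length ≤ L.length)
    (h : wsum (KK L) i X = wsum (KK L) i Y) : 8 * val i X ≤ 8 * val i Y + maxv i L := by
  rcases Nat.eq_zero_or_pos L.length with h0 | h0
  · have hX0 : X = [] := List.length_eq_zero_iff.mp (by omega)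
    rw [hX0]
    simp [val]
  · have hB : 0 < B16 L := by rw [B16_eq_pr]; omega
    rcases cnt_spec_pr (x := maxv i L) hB with h1 | h1
    · have hK : KK L i = [] := h1
      rw [ca_sum_nil (KK L) i hK X, ca_sum_nil (KK L) i hK Y, h]
      omega
    · have h2 := (ca_sum (KK L) i X).2
      have h3 := (ca_sum (KK L) i Y).1
      have hK : (KK L i).length = (cnt (B16 L) (maxv i L)).length := rfl
      rw [B16_eq_pr, show 16 * L.length / 2 = 8 * L.length by omega] at h1
      rw [B16_eq_pr] at hK
      rw [← hK] at h1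
      rw [h] at h2
      have h4 : X.length * 2 ^ (KK L i).length ≤ L.length * 2 ^ (KK L i).length :=
        Nat.mul_le_mul_right _ hXl
      nlinarith

end Pool.Agent.EFD
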